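import Pool.Agent.Lib.H70L.Def

/-!
# H57L, file Cl: the closure operator of the sparse graphs (MP_33911d, form L, chunk D)
-/

set_option autoImplicit false
set_option linter.unusedSectionVars false

namespace H57L

open Finset H98P H98M H70L

variable {V : Type*} [Fintype V] [DecidableEq V]

/-- A tight set. -/
def Tight (I : Finset (Sym2 V)) (X : Finset V) : Prop :=
  2 ≤ X.card ∧ (I ∩ X.sym2).card + 3 = 2 * X.card

open Classical in
/-- The maximal tight sets. -/
noncomputable def MT (I : Finset (Sym2 V)) : Finset (Finset V) :=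
  univ.filter fun X => Tight I X ∧ ∀ Y, Tight I Y → X ⊆ Y → Y ⊆ X

theorem mem_MT {I : Finset (Sym2 V)} {X : Finset V} :
    X ∈ MT I ↔ Tight I X ∧ ∀ Y, Tight I Y → X ⊆ Y → Y ⊆ X := by
  classical
  unfold MT
  simp

theorem sym2_inter (X Y : Finset V) : (X ∩ Y).sym2 = X.sym2 ∩ Y.sym2 := by
  ext e
  induction e with
  | _ x y =>
    simp only [mem_inter, mk_mem_sym2_iff]
    tauto

theorem tight_union {I : Finset (Sym2 V)} (hI : Sparse I) {X Y : Finset V} (hX : Tight I X)
    (hY : Tight I Y) (h : 2 ≤ (X ∩ Y).card) : Tight I (X ∪ Y) := by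
  have h1 := card_union_add_card_inter (I ∩ X.sym2) (I ∩ Y.sym2)
  have h2 : (I ∩ X.sym2) ∪ (I ∩ Y.sym2) ⊆ I ∩ (X ∪ Y).sym2 := by
    intro e he
    rw [mem_union, mem_inter, mem_inter] at he
    rw [mem_inter]
    rcases he with ⟨h3, h4⟩ | ⟨h3, h4⟩
    · exact ⟨h3, sym2_mono subset_union_left h4⟩
    · exact ⟨h3, sym2_mono subset_union_right h4⟩
  have h3 : (I ∩ X.sym2) ∩ (I ∩ Y.sym2) = I ∩ (X ∩ Y).sym2 := by
    rw [sym2_inter]
    ext e
    simp only [mem_inter]
    tauto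
  have h4 := card_le_card h2
  have h5 := hI (X ∩ Y) h
  have h6 := card_union_add_card_inter X Y
  have h7 := card_le_card (subset_union_left : X ⊆ X ∪ Y)
  have h8 := hI (X ∪ Y) (hX.1.trans h7)
  rw [h3] at h1
  have h9 := hX.2
  have h10 := hY.2
  exact ⟨hX.1.trans h7, by omega⟩

theorem exists_MT {I : Finset (Sym2 V)} {X : Finset V} (hX : Tight I X) : ∃ Y ∈ MT I, X ⊆ Y := by
  classical
  obtain ⟨Y, hY, hmax⟩ := exists_max_image (univ.filter fun Y : Finset V => Tight I Y ∧ X ⊆ Y)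
    (fun Y => Y.card) ⟨X, by simp [hX]⟩
  rw [mem_filter] at hY
  refine ⟨Y, mem_MT.2 ⟨hY.2.1, fun Z hZ hYZ => ?_⟩, hY.2.2⟩
  have h1 := hmax Z (by simp [hZ, hY.2.2.trans hYZ])
  exact (eq_of_subset_of_card_le hYZ h1).symm.subset

theorem MT_inter {I : Finset (Sym2 V)} (hI : Sparse I) {X Y : Finset V} (hX : X ∈ MT I)
    (hY : Y ∈ MT I) (h : 2 ≤ (X ∩ Y).card) : X = Y := by
  rw [mem_MT] at hX hY
  have h1 := tight_union hI hX.1 hY.1 h
  have h2 := hX.2 _ h1 subset_union_left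
  have h3 := hY.2 _ h1 subset_union_right
  exact Subset.antisymm (subset_union_left.trans h3) (subset_union_right.trans h2)

theorem two_le_inter {X Y : Finset V} {e : Sym2 V} (he : e ∈ LW (univ : Finset V))
    (hX : e ∈ X.sym2) (hY : e ∈ Y.sym2) : 2 ≤ (X ∩ Y).card := by
  induction e with
  | _ x y =>
    have hxy : x ≠ y := by
      unfold LW at he
      rw [mem_filter] at he
      simpa using he.2
    rw [mk_mem_sym2_iff] at hX hY
    have h1 : ({x, y} : Finset V) ⊆ X ∩ Y := by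
      intro v hv
      rw [mem_insert, mem_singleton] at hv
      rw [mem_inter]
      rcases hv with rfl | rfl
      · exact ⟨hX.1, hY.1⟩
      · exact ⟨hX.2, hY.2⟩
    have h2 := card_le_card h1
    rwa [card_pair hxy] at h2

theorem edge_tight {I : Finset (Sym2 V)} (hI : Sparse I) (hL : I ⊆ LW univ) {e : Sym2 V}
    (he : e ∈ I) : ∃ X ∈ MT I, e ∈ X.sym2 := by
  have heL := hL he
  induction e with
  | _ x y =>
    have hxy : x ≠ y := by
      unfold LW at heL
      rw [mem_filter] at heL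
      simpa using heL.2
    have hc : ({x, y} : Finset V).card = 2 := card_pair hxy
    have h1 : s(x, y) ∈ I ∩ ({x, y} : Finset V).sym2 := by
      rw [mem_inter, mk_mem_sym2_iff]
      exact ⟨he, by simp, by simp⟩
    have h2 := card_pos.2 ⟨_, h1⟩
    have h3 := hI {x, y} hc.ge
    have h4 : Tight I {x, y} := ⟨hc.ge, by omega⟩
    obtain ⟨Y, hY, hs⟩ := exists_MT h4
    exact ⟨Y, hY, sym2_mono hs (mem_inter.1 h1).2⟩

theorem card_eq {I : Finset (Sym2 V)} (hI : Sparse I) (hL : I ⊆ LW univ) : cost (MT I) = I.card := by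
  classical
  have h1 : I = (MT I).biUnion fun X => I ∩ X.sym2 := by
    ext e
    rw [mem_biUnion]
    constructor
    · intro he
      obtain ⟨X, hX, h⟩ := edge_tight hI hL he
      exact ⟨X, hX, mem_inter.2 ⟨he, h⟩⟩
    · rintro ⟨X, -, h⟩
      exact (mem_inter.1 h).1
  have h2 : ((MT I).biUnion fun X => I ∩ X.sym2).card = ∑ X ∈ MT I, (I ∩ X.sym2).card := by
    apply card_biUnion
    intro X hX Y hY hne
    rw [Function.onFun, disjoint_left]
    intro e h3 h4
    rw [mem_inter] at h3 h4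
    exact hne (MT_inter hI hX hY (two_le_inter (hL h3.1) h3.2 h4.2))
  rw [← h1] at h2
  rw [h2]
  unfold cost
  refine sum_congr rfl fun X hX => ?_
  have h3 := (mem_MT.1 hX).1
  have h4 := h3.2
  omega

theorem bound {I J : Finset (Sym2 V)} (hI : Sparse I) (hL : I ⊆ LW univ) (hJ : Sparse J)
    (hJG : J ⊆ HG (MT I)) : J.card ≤ I.card := by
  classical
  have h1 : J ⊆ (MT I).biUnion fun X => J ∩ X.sym2 := by
    intro e he
    have h2 := hJG he
    unfold HG at h2
    rw [mem_filter] at h2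
    obtain ⟨X, hX, h3⟩ := h2.2
    exact mem_biUnion.2 ⟨X, hX, mem_inter.2 ⟨he, h3⟩⟩
  rw [← card_eq hI hL]
  refine (card_le_card h1).trans (card_biUnion_le.trans ?_)
  unfold cost
  refine sum_le_sum fun X hX => ?_
  have h2 := hJ X (mem_MT.1 hX).1.1
  omega

/-- `I` is a maximal sparse subset of `G`. -/
structure Mx (I G : Finset (Sym2 V)) : Prop where
  sub : I ⊆ G
  sp : Sparse I
  mx : ∀ J, I ⊆ J → J ⊆ G → Sparse J → J = I

theorem exists_Mx {I G : Finset (Sym2 V)} (hI : Sparse I) (h : I ⊆ G) : ∃ J, I ⊆ J ∧ Mx J G := by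
  classical
  obtain ⟨J, hJ, hmax⟩ := exists_max_image (G.powerset.filter fun J => Sparse J ∧ I ⊆ J)
    (fun J => J.card) ⟨I, by simp [h, hI]⟩
  rw [mem_filter, mem_powerset] at hJ
  refine ⟨J, hJ.2.2, hJ.1, hJ.2.1, fun K hJK hK hs => ?_⟩
  have h1 := hmax K (by simp [hK, hs, hJ.2.2.trans hJK])
  exact (eq_of_subset_of_card_le hJK h1).symm

theorem insert_sparse {I : Finset (Sym2 V)} (hI : Sparse I) {e : Sym2 V}
    (heL : e ∈ LW (univ : Finset V)) (he : e ∉ HG (MT I)) : Sparse (insert e I) := by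
  intro X hX
  have h1 := hI X hX
  by_cases h2 : e ∈ X.sym2
  · have h3 : (I ∩ X.sym2).card + 3 ≠ 2 * X.card := by
      intro h4
      obtain ⟨Y, hY, hs⟩ := exists_MT (I := I) (X := X) ⟨hX, h4⟩
      apply he
      unfold HG
      rw [mem_filter]
      exact ⟨heL, Y, hY, sym2_mono hs h2⟩
    have h4 : (insert e I ∩ X.sym2) ⊆ insert e (I ∩ X.sym2) := by
      intro f hf
      rw [mem_inter, mem_insert] at hf
      rw [mem_insert, mem_inter]
      rcases hf with ⟨h5 | h5, h6⟩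
      · exact Or.inl h5
      · exact Or.inr ⟨h5, h6⟩
    have h5 := (card_le_card h4).trans (card_insert_le _ _)
    omega
  · have h4 : (insert e I ∩ X.sym2) ⊆ I ∩ X.sym2 := by
      intro f hf
      rw [mem_inter, mem_insert] at hf
      rw [mem_inter]
      rcases hf with ⟨h5 | h5, h6⟩
      · exact absurd (h5 ▸ h6) h2
      · exact ⟨h5, h6⟩
    have h5 := card_le_card h4
    omega

theorem self_sub {I : Finset (Sym2 V)} (hI : Sparse I) (hL : I ⊆ LW univ) : I ⊆ HG (MT I) := by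
  intro e he
  obtain ⟨X, hX, h⟩ := edge_tight hI hL he
  unfold HG
  rw [mem_filter]
  exact ⟨hL he, X, hX, h⟩

theorem span {I G : Finset (Sym2 V)} (h : Mx I G) (hG : G ⊆ LW univ) : G ⊆ HG (MT I) := by
  intro e he
  by_contra hcon
  have h1 := insert_sparse h.sp (hG he) hcon
  have h2 := h.mx _ (subset_insert e I) (insert_subset he h.sub) h1
  exact hcon (self_sub h.sp (h.sub.trans hG) (h2 ▸ mem_insert_self e I))

theorem card_le_of_Mx {I J G : Finset (Sym2 V)} (h : Mx I G) (hG : G ⊆ LW univ) (hJ : Sparse J)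
    (hJG : J ⊆ G) : J.card ≤ I.card :=
  bound h.sp (h.sub.trans hG) hJ (hJG.trans (span h hG))

theorem indep_sub {I J G : Finset (Sym2 V)} (h : Mx I G) (h' : Mx J G) (hG : G ⊆ LW univ) :
    HG (MT I) ⊆ HG (MT J) := by
  intro e he
  by_contra hcon
  have heL : e ∈ LW (univ : Finset V) := by
    unfold HG at he
    exact (mem_filter.1 he).1
  have h1 := insert_sparse h'.sp heL hcon
  have heJ : e ∉ J := fun h2 => hcon (self_sub h'.sp (h'.sub.trans hG) h2)
  have h2 : insert e J ⊆ HG (MT I) := insert_subset he (h'.sub.trans (span h hG))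
  have h3 := bound h.sp (h.sub.trans hG) h1 h2
  rw [card_insert_of_notMem heJ] at h3
  have h4 := card_le_of_Mx h' hG h.sp h.sub
  omega

theorem mono_sub {I J : Finset (Sym2 V)} (hJ : Sparse J) (hIJ : I ⊆ J) :
    HG (MT I) ⊆ HG (MT J) := by
  intro e he
  unfold HG at he ⊢
  rw [mem_filter] at he ⊢
  obtain ⟨heL, X, hX, h⟩ := he
  have h1 := (mem_MT.1 hX).1
  have h2 := hJ X h1.1
  have h3 := card_le_card (inter_subset_inter_right hIJ : I ∩ X.sym2 ⊆ J ∩ X.sym2)
  have h4 : Tight J X := ⟨h1.1, by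
    have h5 := h1.2
    omega⟩
  obtain ⟨Y, hY, hs⟩ := exists_MT h4
  exact ⟨heL, Y, hY, sym2_mono hs h⟩

theorem sparse_empty : Sparse (∅ : Finset (Sym2 V)) := by
  intro X hX
  rw [empty_inter, card_empty]
  omega

/-- **Chunk D.** -/
theorem exists_closure : ∃ (cl : Finset (Sym2 V) → Finset (Finset V)) (r : Finset (Sym2 V) → ℕ),
    (∀ G : Finset (Sym2 V), G ⊆ LW univ → (∀ X ∈ cl G, 2 ≤ X.card) ∧ G ⊆ HG (cl G) ∧
      cost (cl G) = r G ∧ ∃ H ⊆ G, Sparse H ∧ H.card = r G) ∧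
    (∀ G G' : Finset (Sym2 V), G ⊆ G' → G' ⊆ LW univ → HG (cl G) ⊆ HG (cl G') ∧
      (HG (cl G) = HG (cl G') ∨ r G < r G')) := by
  classical
  have hex : ∀ G : Finset (Sym2 V), ∃ I, Mx I G := fun G => by
    obtain ⟨I, -, h⟩ := exists_Mx sparse_empty (empty_subset G)
    exact ⟨I, h⟩
  choose I hI using hex
  refine ⟨fun G => MT (I G), fun G => (I G).card, fun G hG => ⟨fun X hX => (mem_MT.1 hX).1.1,
    span (hI G) hG, card_eq (hI G).sp ((hI G).sub.trans hG), I G, (hI G).sub, (hI G).sp, rfl⟩, ?_⟩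
  intro G G' hGG hG'
  obtain ⟨J, hIJ, hJ⟩ := exists_Mx (hI G).sp ((hI G).sub.trans hGG)
  have h1 : HG (MT J) = HG (MT (I G')) :=
    Subset.antisymm (indep_sub hJ (hI G') hG') (indep_sub (hI G') hJ hG')
  have h2 : (I G').card = J.card :=
    le_antisymm (card_le_of_Mx hJ hG' (hI G').sp (hI G').sub)
      (card_le_of_Mx (hI G') hG' hJ.sp hJ.sub)
  refine ⟨h1 ▸ mono_sub hJ.sp hIJ, ?_⟩
  by_cases h3 : (I G).card < (I G').card
  · exact Or.inr h3
  · left
    have h4 : J.card ≤ (I G).card := by omega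
    have h5 : I G = J := eq_of_subset_of_card_le hIJ h4
    show HG (MT (I G)) = HG (MT (I G'))
    rw [h5, h1]

end H57L
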