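import Pool.Agent.Lib.H57L.Cl

/-!
# H57L, file Cor: corollaries for sparse graphs with `2n - 3` edges (MP_33911d, form L)

Such a graph is 2-connected, and every partition of the vertices into `p` parts is crossed by at least `2p - 3` edges.
-/

set_option autoImplicit false
set_option linter.unusedSectionVars false

namespace H57L

open Finset H98P H98M H70L

variable {V : Type*} [Fintype V] [DecidableEq V]

theorem inner_le {H : Finset (Sym2 V)} (hs : Sparse H) (hL : H ⊆ LW univ) {A : Finset V}
    (hA : A.Nonempty) : (H ∩ A.sym2).card + 2 ≤ 2 * A.card := by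
  have h1 := hA.card_pos
  by_cases h2 : 2 ≤ A.card
  · have h3 := hs A h2
    omega
  · have h3 : A.card = 1 := by omega
    obtain ⟨a, ha⟩ := card_eq_one.1 h3
    have h4 : H ∩ A.sym2 = ∅ := by
      rw [eq_empty_iff_forall_notMem]
      intro e he
      rw [mem_inter] at he
      have h5 := hL he.1
      induction e with
      | _ x y =>
        unfold LW at h5
        rw [mem_filter] at h5
        rw [ha, mk_mem_sym2_iff, mem_singleton, mem_singleton] at he
        apply h5.2
        rw [he.2.1, he.2.2]
        exact Sym2.mk_isDiag_iff.2 rfl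
    rw [h4, card_empty]
    omega

/-- A sparse graph with `2n - 3` edges is connected. -/
theorem conn {H : Finset (Sym2 V)} (hs : Sparse H) (hL : H ⊆ LW univ)
    (hc : H.card + 3 = 2 * Fintype.card V) : ¬ Disc univ H := by
  rintro ⟨C, D, hC, hD, hCD, hu, h⟩
  have h1 : H ⊆ (H ∩ C.sym2) ∪ (H ∩ D.sym2) := by
    intro e he
    rw [mem_union, mem_inter, mem_inter]
    induction e with
    | _ x y =>
      have hx : x ∈ C ∪ D := hu ▸ mem_univ x
      have hy : y ∈ C ∪ D := hu ▸ mem_univ y
      rw [mem_union] at hx hy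
      rw [mk_mem_sym2_iff, mk_mem_sym2_iff]
      rcases hx with hx | hx <;> rcases hy with hy | hy
      · exact Or.inl ⟨he, hx, hy⟩
      · exact absurd he (h x hx y hy)
      · rw [Sym2.eq_swap] at he
        exact absurd he (h y hy x hx)
      · exact Or.inr ⟨he, hx, hy⟩
  have h2 := (card_le_card h1).trans (card_union_le _ _)
  have h3 := inner_le hs hL hC
  have h4 := inner_le hs hL hD
  have h5 : C.card + D.card = Fintype.card V := by
    rw [← card_union_of_disjoint hCD, hu, card_univ]
  omega

/-- A sparse graph with `2n - 3` edges has no cut vertex. -/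
theorem conn' {H : Finset (Sym2 V)} (hs : Sparse H) (hc : H.card + 3 = 2 * Fintype.card V)
    (z : V) : ¬ Disc (univ.erase z) H := by
  rintro ⟨C, D, hC, hD, hCD, hu, h⟩
  have hmem : ∀ x, x = z ∨ x ∈ C ∨ x ∈ D := by
    intro x
    by_cases hx : x = z
    · exact Or.inl hx
    · right
      have h1 : x ∈ C ∪ D := hu ▸ mem_erase.2 ⟨hx, mem_univ x⟩
      exact mem_union.1 h1
  have hzC : z ∉ C := fun h1 => by
    have h2 : z ∈ univ.erase z := hu ▸ mem_union_left D h1
    exact notMem_erase z _ h2
  have hzD : z ∉ D := fun h1 => by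
    have h2 : z ∈ univ.erase z := hu ▸ mem_union_right C h1
    exact notMem_erase z _ h2
  have h1 : H ⊆ (H ∩ (insert z C).sym2) ∪ (H ∩ (insert z D).sym2) := by
    intro e he
    rw [mem_union, mem_inter, mem_inter]
    induction e with
    | _ x y =>
      simp only [mk_mem_sym2_iff, mem_insert]
      rcases hmem x with hx | hx | hx <;> rcases hmem y with hy | hy | hy
      · exact Or.inl ⟨he, Or.inl hx, Or.inl hy⟩
      · exact Or.inl ⟨he, Or.inl hx, Or.inr hy⟩
      · exact Or.inr ⟨he, Or.inl hx, Or.inr hy⟩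
      · exact Or.inl ⟨he, Or.inr hx, Or.inl hy⟩
      · exact Or.inl ⟨he, Or.inr hx, Or.inr hy⟩
      · exact absurd he (h x hx y hy)
      · exact Or.inr ⟨he, Or.inr hx, Or.inl hy⟩
      · rw [Sym2.eq_swap] at he
        exact absurd he (h y hy x hx)
      · exact Or.inr ⟨he, Or.inr hx, Or.inr hy⟩
  have h2 := (card_le_card h1).trans (card_union_le _ _)
  have h3 : (insert z C).card = C.card + 1 := card_insert_of_notMem hzC
  have h4 : (insert z D).card = D.card + 1 := card_insert_of_notMem hzD
  have hC1 := hC.card_pos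
  have hD1 := hD.card_pos
  have h5 := hs (insert z C) (by omega)
  have h6 := hs (insert z D) (by omega)
  have h7 : C.card + D.card + 1 = Fintype.card V := by
    rw [← card_union_of_disjoint hCD, hu, card_erase_of_mem (mem_univ z), card_univ]
    have : 0 < Fintype.card V := Fintype.card_pos_iff.2 ⟨z⟩
    omega
  omega

/-- Every partition of the vertices into `p` parts is crossed by at least `2p - 3` edges of a sparse
graph with `2n - 3` edges. -/
theorem parts {H : Finset (Sym2 V)} (hs : Sparse H) (hL : H ⊆ LW univ)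
    (hc : H.card + 3 = 2 * Fintype.card V) (P : Finset (Finset V)) (hne : ∀ A ∈ P, A.Nonempty)
    (hd : ∀ A ∈ P, ∀ B ∈ P, A ≠ B → Disjoint A B) (hu : P.biUnion id = univ) :
    2 * P.card ≤ (H.filter fun e => ∀ A ∈ P, e ∉ A.sym2).card + 3 := by
  have h1 : H ⊆ (H.filter fun e => ∀ A ∈ P, e ∉ A.sym2) ∪ P.biUnion fun A => H ∩ A.sym2 := by
    intro e he
    rw [mem_union, mem_filter, mem_biUnion]
    by_cases h : ∀ A ∈ P, e ∉ A.sym2
    · exact Or.inl ⟨he, h⟩
    · push Not at h
      obtain ⟨A, hA, h⟩ := h
      exact Or.inr ⟨A, hA, mem_inter.2 ⟨he, h⟩⟩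
  have h2 := (card_le_card h1).trans ((card_union_le _ _).trans
    (Nat.add_le_add_left card_biUnion_le _))
  have h3 : ∑ A ∈ P, ((H ∩ A.sym2).card + 2) ≤ ∑ A ∈ P, 2 * A.card :=
    sum_le_sum fun A hA => inner_le hs hL (hne A hA)
  have h4 : ∑ A ∈ P, A.card = Fintype.card V := by
    have h5 : (P.biUnion id).card = ∑ A ∈ P, (id A).card :=
      card_biUnion fun A hA B hB hAB => hd A hA B hB hAB
    rw [hu, card_univ] at h5
    exact h5.symm
  rw [sum_add_distrib, ← mul_sum, h4, sum_const, smul_eq_mul] at h3
  omega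

end H57L
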