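import Pool.Agent.Lib.H57L.Cor
import Pool.Agent.Lib.H85TF.P1

/-!
# H57L, file Fac: a graph with degrees at most two is sparse; extension to a Laman graph (MP_33911d)
-/

set_option autoImplicit false
set_option linter.unusedSectionVars false

namespace H57L

open Finset H98P H98M H70L H85TF

variable {V : Type*} [Fintype V] [DecidableEq V]

/-- An edge set with degrees at most two is sparse. -/
theorem factor_sparse {F : Finset (Sym2 V)} (hL : F ⊆ LW univ) (hd : ∀ v, dg F v ≤ 2) :
    Sparse F := by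
  classical
  intro X hX
  have h1 : ∑ v ∈ X, ((F ∩ X.sym2).filter fun e => v ∈ e).card =
      ∑ e ∈ F ∩ X.sym2, (X.filter fun v => v ∈ e).card :=
    sum_card_bipartiteAbove_eq_sum_card_bipartiteBelow (s := X) (t := F ∩ X.sym2)
      (fun v e => v ∈ e)
  have h2 : ∀ e ∈ F ∩ X.sym2, (X.filter fun v => v ∈ e).card = 2 := by
    intro e he
    rw [mem_inter] at he
    have h5 := hL he.1
    induction e with
    | _ x y =>
      unfold LW at h5
      rw [mem_filter, Sym2.mk_isDiag_iff] at h5
      rw [mk_mem_sym2_iff] at he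
      have h6 : (X.filter fun v => v ∈ s(x, y)) = {x, y} := by
        ext v
        rw [mem_filter, Sym2.mem_iff, mem_insert, mem_singleton]
        constructor
        · exact fun h => h.2
        · rintro (rfl | rfl)
          · exact ⟨he.2.1, Or.inl rfl⟩
          · exact ⟨he.2.2, Or.inr rfl⟩
      rw [h6, card_pair h5.2]
  have h3 : ∑ v ∈ X, ((F ∩ X.sym2).filter fun e => v ∈ e).card ≤ ∑ _v ∈ X, 2 :=
    sum_le_sum fun v _ => (card_le_card (filter_subset_filter _ inter_subset_left)).trans (hd v)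
  rw [h1, sum_congr rfl h2, sum_const, sum_const, smul_eq_mul, smul_eq_mul] at h3
  by_cases h4 : 3 ≤ X.card
  · omega
  · have h5 : X.card = 2 := by omega
    obtain ⟨x, y, hxy, hXe⟩ := card_eq_two.1 h5
    have h6 : F ∩ X.sym2 ⊆ {s(x, y)} := by
      intro e he
      rw [mem_inter] at he
      have h7 := hL he.1
      induction e with
      | _ a b =>
        unfold LW at h7
        rw [mem_filter, Sym2.mk_isDiag_iff] at h7
        rw [mk_mem_sym2_iff, hXe, mem_insert, mem_singleton, mem_insert, mem_singleton] at he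
        rw [mem_singleton, Sym2.eq_iff]
        obtain ⟨-, h8 | h8, h9 | h9⟩ := he
        · exact absurd (h8.trans h9.symm) h7.2
        · exact Or.inl ⟨h8, h9⟩
        · exact Or.inr ⟨h8, h9⟩
        · exact absurd (h8.trans h9.symm) h7.2
    have h7 := card_le_card h6
    rw [card_singleton] at h7
    omega

/-- An edge set with degrees at most two inside a graph of full rank extends to a Laman graph. -/
theorem exists_laman {G F : Finset (Sym2 V)} (hGL : G ⊆ LW univ) (hFG : F ⊆ G)
    (hd : ∀ v, dg F v ≤ 2) (h2 : 2 ≤ Fintype.card V)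
    (hr : ∃ H₀ ⊆ G, Sparse H₀ ∧ 2 * Fintype.card V ≤ H₀.card + 3) :
    ∃ H, F ⊆ H ∧ H ⊆ G ∧ Sparse H ∧ H.card + 3 = 2 * Fintype.card V ∧ ¬ Disc univ H ∧
      ∀ z, ¬ Disc (univ.erase z) H := by
  obtain ⟨H, hFH, hH⟩ := exists_Mx (factor_sparse (hFG.trans hGL) hd) hFG
  obtain ⟨H₀, h3, h4, h5⟩ := hr
  have h6 := card_le_of_Mx hH hGL h4 h3
  have h7 := hH.sp univ (by rwa [card_univ])
  have h8 : H ∩ (univ : Finset V).sym2 = H := by
    rw [inter_eq_left]
    intro e _
    induction e with
    | _ x y => exact mk_mem_sym2_iff.2 ⟨mem_univ x, mem_univ y⟩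
  rw [h8, card_univ] at h7
  have h9 : H.card + 3 = 2 * Fintype.card V := by omega
  exact ⟨H, hFH, hH.sub, hH.sp, h9, conn hH.sp (hH.sub.trans hGL) h9, conn' hH.sp h9⟩

end H57L
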